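import Mathlib

/-!
# Second order terms near 0: analysis
-/

set_option autoImplicit false
set_option maxHeartbeats 1000000

namespace Pool.Agent.W975.S2

open Complex MeasureTheory Filter Topology Set Classical

/-- the sum over an octave -/
noncomputable def DD (S : Set ℕ) (m : ℕ → ℝ) (v : ℝ) : ℝ :=
  ∑ p ∈ (Finset.range (⌊Real.exp v⌋₊ + 1)).filter (fun p => p ∈ S ∧ Real.exp (v / 2) < p), m p

theorem DD_meas (S : Set ℕ) (m : ℕ → ℝ) : Measurable (DD S m) := by
  have h : DD S m = (fun q : ℕ × ℕ => ∑ p ∈ (Finset.range (q.1 + 1)).filter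
      (fun p => p ∈ S ∧ q.2 < p), m p) ∘
      (fun v : ℝ => (⌊Real.exp v⌋₊, ⌊Real.exp (v / 2)⌋₊)) := by
    funext v
    unfold DD
    simp only [Function.comp_apply]
    apply Finset.sum_congr _ (fun _ _ => rfl)
    apply Finset.filter_congr
    intro p _
    rw [Nat.floor_lt (Real.exp_pos _).le]
  rw [h]
  apply (measurable_of_countable _).comp
  exact (Nat.measurable_floor.comp Real.measurable_exp).prodMk
    (Nat.measurable_floor.comp (Real.measurable_exp.comp (measurable_id.div_const 2)))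

/-- the integrand -/
noncomputable def Fp (S : Set ℕ) (m : ℕ → ℝ) (ζ : ℂ) (T : ℝ) (p : ℕ) (u : ℝ) : ℂ :=
  if p ∈ S then (Set.Ico (Real.log p / T) (2 * (Real.log p / T))).indicator
    (fun u : ℝ => (m p : ℂ) * (ζ * exp (-ζ * u))) u else 0

theorem contE (ζ c : ℂ) : Continuous (fun u : ℝ => c * (ζ * exp (-ζ * u))) := by
  have h : Continuous (fun u : ℝ => exp (-ζ * u)) :=
    Complex.continuous_exp.comp (continuous_const.mul Complex.continuous_ofReal)
  exact continuous_const.mul (continuous_const.mul h)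

theorem setEq {a b : ℝ} (ha : 0 < a) : Ioi (0 : ℝ) ∩ Ico a b = Ico a b := by
  apply Set.inter_eq_right.2
  intro u hu
  exact lt_of_lt_of_le ha hu.1

theorem int_one (ζ c : ℂ) (a b : ℝ) (ha : 0 < a) (hab : a ≤ b) :
    ∫ u in Ioi (0 : ℝ), (Set.Ico a b).indicator (fun u : ℝ => c * (ζ * exp (-ζ * u))) u =
      c * (exp (-ζ * a) - exp (-ζ * b)) := by
  rw [setIntegral_indicator measurableSet_Ico, setEq ha, integral_Ico_eq_integral_Ioo,
    ← integral_Ioc_eq_integral_Ioo, ← intervalIntegral.integral_of_le hab]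
  have hd : ∀ u : ℝ, HasDerivAt (fun u : ℝ => -(c * exp (-ζ * u))) (c * (ζ * exp (-ζ * u))) u := by
    intro u
    have h1 : HasDerivAt (fun u : ℝ => -ζ * (u : ℂ)) (-ζ * 1) u :=
      (Complex.ofRealCLM.hasDerivAt (x := u)).const_mul (-ζ)
    have h2 := ((h1.cexp).const_mul c).neg
    refine h2.congr_deriv ?_
    ring
  rw [intervalIntegral.integral_eq_sub_of_hasDerivAt (fun u _ => hd u)
    ((contE ζ c).intervalIntegrable _ _)]
  ring

theorem intg_one (ζ c : ℂ) (a b : ℝ) :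
    Integrable ((Set.Ico a b).indicator (fun u : ℝ => c * (ζ * exp (-ζ * u))))
      (volume.restrict (Ioi (0 : ℝ))) := by
  have h1 : IntegrableOn (fun u : ℝ => c * (ζ * exp (-ζ * u))) (Ico a b) volume :=
    ((contE ζ c).integrableOn_Icc (a := a) (b := b)).mono_set Ico_subset_Icc_self
  have h2 : Integrable ((Set.Ico a b).indicator (fun u : ℝ => c * (ζ * exp (-ζ * u)))) volume :=
    (integrable_indicator_iff measurableSet_Ico).2 h1
  exact h2.mono_measure Measure.restrict_le_self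

theorem norm_E (ζ c : ℂ) (u : ℝ) : ‖c * (ζ * exp (-ζ * u))‖ =
    ‖c‖ * (‖ζ‖ * Real.exp (-(ζ.re) * u)) := by
  rw [norm_mul, norm_mul, Complex.norm_exp]
  simp

theorem norm_int_one (ζ c : ℂ) (hζ : 0 < ζ.re) (a b : ℝ) (ha : 0 < a) (hab : a ≤ b) :
    ∫ u in Ioi (0 : ℝ), ‖(Set.Ico a b).indicator (fun u : ℝ => c * (ζ * exp (-ζ * u))) u‖ ≤
      ‖c‖ * (‖ζ‖ / ζ.re) * Real.exp (-(ζ.re) * a) := by
  have e1 : ∀ u, ‖(Set.Ico a b).indicator (fun u : ℝ => c * (ζ * exp (-ζ * u))) u‖ =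
      (Set.Ico a b).indicator (fun u : ℝ => ‖c‖ * (‖ζ‖ * Real.exp (-(ζ.re) * u))) u := by
    intro u
    by_cases h : u ∈ Set.Ico a b
    · rw [Set.indicator_of_mem h, Set.indicator_of_mem h, norm_E]
    · rw [Set.indicator_of_notMem h, Set.indicator_of_notMem h, norm_zero]
  simp_rw [e1]
  rw [setIntegral_indicator measurableSet_Ico, setEq ha, integral_Ico_eq_integral_Ioo,
    ← integral_Ioc_eq_integral_Ioo, ← intervalIntegral.integral_of_le hab]
  have hc : Continuous (fun u : ℝ => ‖c‖ * (‖ζ‖ * Real.exp (-(ζ.re) * u))) := by fun_prop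
  have hd : ∀ u : ℝ, HasDerivAt (fun u : ℝ => -(‖c‖ * (‖ζ‖ / ζ.re) * Real.exp (-(ζ.re) * u)))
      (‖c‖ * (‖ζ‖ * Real.exp (-(ζ.re) * u))) u := by
    intro u
    have h1 : HasDerivAt (fun u : ℝ => -(ζ.re) * u) (-(ζ.re) * 1) u :=
      (hasDerivAt_id u).const_mul _
    have h2 := ((h1.exp).const_mul (‖c‖ * (‖ζ‖ / ζ.re))).neg
    refine h2.congr_deriv ?_
    field_simp
  rw [intervalIntegral.integral_eq_sub_of_hasDerivAt (fun u _ => hd u)
    (hc.intervalIntegrable _ _)]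
  have h5 : 0 ≤ ‖c‖ * (‖ζ‖ / ζ.re) * Real.exp (-(ζ.re) * b) := by positivity
  linarith

variable {S : Set ℕ} {m : ℕ → ℝ}

theorem hasSumF (hS : ∀ p ∈ S, 2 ≤ p) (hm : ∀ p ∈ S, |m p| ≤ 1 / p) {ζ : ℂ} (hζ : 0 < ζ.re)
    {T : ℝ} (hT : 0 < T) :
    HasSum (fun p => ∫ u in Ioi (0 : ℝ), Fp S m ζ T p u)
      (∫ u in Ioi (0 : ℝ), ∑' p, Fp S m ζ T p u) := by
  have hl : ∀ p ∈ S, 0 < Real.log p / T := by
    intro p hp
    apply div_pos _ hT
    apply Real.log_pos
    have := hS p hp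
    have h2 : (2 : ℝ) ≤ p := by exact_mod_cast this
    linarith
  apply hasSum_integral_of_summable_integral_norm
  · intro p
    unfold Fp
    by_cases hp : p ∈ S
    · simp only [if_pos hp]
      exact intg_one ζ (m p) _ _
    · simp only [if_neg hp]
      exact integrable_zero _ _ _
  · have hsum : Summable (fun p : ℕ => (‖ζ‖ / ζ.re) * (p : ℝ) ^ (-1 - ζ.re / T)) := by
      apply Summable.mul_left
      rw [Real.summable_nat_rpow]
      have : 0 < ζ.re / T := div_pos hζ hT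
      linarith
    refine Summable.of_nonneg_of_le (fun p => integral_nonneg fun u => norm_nonneg _) ?_ hsum
    intro p
    have hr : 0 ≤ ‖ζ‖ / ζ.re := by positivity
    by_cases hp : p ∈ S
    · have h1 := norm_int_one ζ (m p) hζ _ (2 * (Real.log p / T)) (hl p hp) (by
        have := hl p hp
        linarith)
      have h2 : ∫ u in Ioi (0 : ℝ), ‖Fp S m ζ T p u‖ = ∫ u in Ioi (0 : ℝ),
          ‖(Set.Ico (Real.log p / T) (2 * (Real.log p / T))).indicator
            (fun u : ℝ => (m p : ℂ) * (ζ * exp (-ζ * u))) u‖ := by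
        unfold Fp
        simp only [if_pos hp]
      rw [h2]
      refine h1.trans ?_
      have hp0 : (0 : ℝ) < p := by
        have := hS p hp
        exact_mod_cast (by omega : 0 < p)
      have h3 : Real.exp (-(ζ.re) * (Real.log p / T)) = (p : ℝ) ^ (-(ζ.re / T)) := by
        rw [Real.rpow_def_of_pos hp0]
        congr 1
        ring
      have h4 : (p : ℝ) ^ (-1 - ζ.re / T) = 1 / p * (p : ℝ) ^ (-(ζ.re / T)) := by
        rw [sub_eq_add_neg, Real.rpow_add hp0, Real.rpow_neg_one, one_div]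
      rw [h3, h4, Complex.norm_real, Real.norm_eq_abs]
      have h5 := hm p hp
      have h6 : 0 ≤ (p : ℝ) ^ (-(ζ.re / T)) := by positivity
      have h7 : 0 ≤ (‖ζ‖ / ζ.re) * (p : ℝ) ^ (-(ζ.re / T)) := mul_nonneg hr h6
      calc |m p| * (‖ζ‖ / ζ.re) * (p : ℝ) ^ (-(ζ.re / T))
          = |m p| * ((‖ζ‖ / ζ.re) * (p : ℝ) ^ (-(ζ.re / T))) := by ring
        _ ≤ (1 / p) * ((‖ζ‖ / ζ.re) * (p : ℝ) ^ (-(ζ.re / T))) :=
            mul_le_mul_of_nonneg_right h5 h7
        _ = _ := by ring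
    · have h2 : ∫ u in Ioi (0 : ℝ), ‖Fp S m ζ T p u‖ = 0 := by
        unfold Fp
        simp only [if_neg hp, norm_zero, integral_zero]
      rw [h2]
      positivity

theorem tsumF (hS : ∀ p ∈ S, 2 ≤ p) {ζ : ℂ} {T : ℝ} (hT : 0 < T) (u : ℝ) :
    ∑' p, Fp S m ζ T p u = ζ * exp (-ζ * u) * (DD S m (T * u) : ℂ) := by
  have key : ∀ p ∈ S, (u ∈ Set.Ico (Real.log p / T) (2 * (Real.log p / T)) ↔
      p ∈ Finset.range (⌊Real.exp (T * u)⌋₊ + 1) ∧ Real.exp (T * u / 2) < p) := by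
    intro p hp
    have hp0 : (0 : ℝ) < p := by
      have := hS p hp
      exact_mod_cast (by omega : 0 < p)
    rw [Set.mem_Ico, Finset.mem_range, Nat.lt_succ_iff, Nat.le_floor_iff (Real.exp_pos _).le,
      ← Real.log_le_iff_le_exp hp0, ← Real.lt_log_iff_exp_lt hp0, div_le_iff₀ hT,
      ← mul_div_assoc, lt_div_iff₀ hT, mul_comm u T]
    constructor
    · rintro ⟨h1, h2⟩
      exact ⟨h1, by linarith⟩
    · rintro ⟨h1, h2⟩
      exact ⟨h1, by linarith⟩
  rw [tsum_eq_sum (s := (Finset.range (⌊Real.exp (T * u)⌋₊ + 1)).filter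
    (fun p => p ∈ S ∧ Real.exp (T * u / 2) < p))]
  · unfold DD
    push_cast
    rw [Finset.mul_sum]
    apply Finset.sum_congr rfl
    intro p hp
    rw [Finset.mem_filter] at hp
    unfold Fp
    rw [if_pos hp.2.1, Set.indicator_of_mem ((key p hp.2.1).2 ⟨hp.1, hp.2.2⟩)]
    ring
  · intro p hp
    unfold Fp
    by_cases hpS : p ∈ S
    · rw [if_pos hpS]
      apply Set.indicator_of_notMem
      intro h
      apply hp
      have h2 := (key p hpS).1 h
      exact Finset.mem_filter.2 ⟨h2.1, hpS, h2.2⟩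
    · rw [if_neg hpS]

theorem intF (hS : ∀ p ∈ S, 2 ≤ p) {ζ : ℂ} {T : ℝ} (hT : 0 < T) (p : ℕ) :
    ∫ u in Ioi (0 : ℝ), Fp S m ζ T p u =
      if p ∈ S then (m p : ℂ) * ((p : ℂ) ^ (-(ζ / T)) - ((p : ℂ) ^ (-(ζ / T))) ^ 2) else 0 := by
  by_cases hp : p ∈ S
  · have h2 : (2 : ℝ) ≤ p := by exact_mod_cast hS p hp
    have hl : 0 < Real.log p / T := div_pos (Real.log_pos (by linarith)) hT
    have h1 := int_one ζ (m p) (Real.log p / T) (2 * (Real.log p / T)) hl (by linarith)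
    have e1 : (fun u => Fp S m ζ T p u) = fun u =>
          (Set.Ico (Real.log p / T) (2 * (Real.log p / T))).indicator
            (fun u : ℝ => (m p : ℂ) * (ζ * exp (-ζ * u))) u := by
      funext u
      unfold Fp
      rw [if_pos hp]
    rw [if_pos hp, e1, h1]
    have hpc : (p : ℂ) ≠ 0 := by
      have := hS p hp
      exact_mod_cast (by omega : p ≠ 0)
    have e2 : exp (-ζ * ((Real.log p / T : ℝ) : ℂ)) = (p : ℂ) ^ (-(ζ / T)) := by
      rw [Complex.cpow_def_of_ne_zero hpc, ← Complex.natCast_log]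
      congr 1
      push_cast
      ring
    have e3 : exp (-ζ * ((2 * (Real.log p / T) : ℝ) : ℂ)) = ((p : ℂ) ^ (-(ζ / T))) ^ 2 := by
      rw [← e2, ← Complex.exp_nat_mul]
      congr 1
      push_cast
      ring
    rw [e2, e3]
  · rw [if_neg hp]
    unfold Fp
    simp only [if_neg hp, integral_zero]

theorem core (hS : ∀ p ∈ S, 2 ≤ p) (hm : ∀ p ∈ S, |m p| ≤ 1 / p) {B L : ℝ}
    (hB : ∀ v, |DD S m v| ≤ B) (hL : Tendsto (DD S m) atTop (𝓝 L)) {ζ : ℂ} (hζ : 0 < ζ.re) :
    Tendsto (fun T : ℝ => ∑' p : ℕ, if p ∈ S then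
      (m p : ℂ) * ((p : ℂ) ^ (-(ζ / T)) - ((p : ℂ) ^ (-(ζ / T))) ^ 2) else 0) atTop
      (𝓝 (L : ℂ)) := by
  have e1 : ∀ᶠ T : ℝ in atTop, (∫ u in Ioi (0 : ℝ), ζ * exp (-ζ * u) * (DD S m (T * u) : ℂ)) =
      ∑' p : ℕ, if p ∈ S then
      (m p : ℂ) * ((p : ℂ) ^ (-(ζ / T)) - ((p : ℂ) ^ (-(ζ / T))) ^ 2) else 0 := by
    filter_upwards [eventually_gt_atTop 0] with T hT
    have h1 := (hasSumF hS hm hζ hT).tsum_eq
    simp_rw [intF hS hT, tsumF hS hT] at h1
    exact h1.symm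
  have hζ0 : ζ ≠ 0 := by
    rintro rfl
    simp at hζ
  have e2 : ∫ u in Ioi (0 : ℝ), ζ * exp (-ζ * u) * (L : ℂ) = (L : ℂ) := by
    have h1 := integral_exp_mul_complex_Ioi (a := -ζ) (by rw [neg_re]; linarith) 0
    rw [integral_mul_const, integral_const_mul, h1]
    simp only [Complex.ofReal_zero, mul_zero, Complex.exp_zero]
    field_simp
  have key : Tendsto (fun T : ℝ => ∫ u in Ioi (0 : ℝ), ζ * exp (-ζ * u) * (DD S m (T * u) : ℂ))
      atTop (𝓝 (∫ u in Ioi (0 : ℝ), ζ * exp (-ζ * u) * (L : ℂ))) := by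
    apply tendsto_integral_filter_of_dominated_convergence
      (fun u => ‖ζ‖ * Real.exp (-(ζ.re) * u) * B)
    · filter_upwards with T
      have h1 : Continuous (fun u : ℝ => ζ * exp (-ζ * u)) := by
        have h := contE ζ 1
        simpa using h
      have h2 : Measurable (fun u : ℝ => (DD S m (T * u) : ℂ)) :=
        Complex.measurable_ofReal.comp ((DD_meas S m).comp (measurable_id.const_mul T))
      exact (h1.measurable.mul h2).aestronglyMeasurable
    · filter_upwards with T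
      filter_upwards with u
      have h3 := norm_E ζ 1 u
      rw [one_mul, norm_one, one_mul] at h3
      rw [norm_mul, h3, Complex.norm_real, Real.norm_eq_abs]
      exact mul_le_mul_of_nonneg_left (hB _) (by positivity)
    · have h1 : IntegrableOn (fun u : ℝ => Real.exp (-(ζ.re) * u)) (Ioi 0) :=
        exp_neg_integrableOn_Ioi 0 hζ
      exact (h1.const_mul _).mul_const _
    · rw [ae_restrict_iff' measurableSet_Ioi]
      filter_upwards with u hu
      have hu0 : (0 : ℝ) < u := hu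
      have h1 : Tendsto (fun T : ℝ => DD S m (T * u)) atTop (𝓝 L) :=
        hL.comp (tendsto_id.atTop_mul_const hu0)
      have h2 : Tendsto (fun T : ℝ => (DD S m (T * u) : ℂ)) atTop (𝓝 (L : ℂ)) :=
        (Complex.continuous_ofReal.tendsto L).comp h1
      exact h2.const_mul _
  rw [e2] at key
  exact key.congr' e1

end Pool.Agent.W975.S2
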