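import Pool.Agent.H21.L.R_seed8.W187.S2.StmRS
import Pool.Agent.H21.L.R_seed8.W975.S2.RSCore

/-!
# Second order terms near 0 from Rankin-Selberg
-/

set_option autoImplicit false
set_option maxHeartbeats 1000000

namespace Pool.Agent.W975.S2

open Complex MeasureTheory Filter Topology Set
open Pool.Agent.W263.BSD Pool.Agent.W187.S2
open scoped Classical

theorem DD_le {S : Set ℕ} {m : ℕ → ℝ} (hP : ∀ p ∈ S, p.Prime) (hm : ∀ p ∈ S, |m p| ≤ 1 / p)
    (v : ℝ) : |DD S m v| ≤
      ∑ p ∈ (Finset.Ioc ⌊Real.exp (v / 2)⌋₊ ⌊Real.exp v⌋₊).filter Nat.Prime, (1 : ℝ) / p := by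
  unfold DD
  refine (Finset.abs_sum_le_sum_abs _ _).trans ?_
  refine (Finset.sum_le_sum (g := fun p : ℕ => (1 : ℝ) / p)
    (fun p hp => hm p (Finset.mem_filter.1 hp).2.1)).trans ?_
  apply Finset.sum_le_sum_of_subset_of_nonneg
  · intro p hp
    rw [Finset.mem_filter, Finset.mem_range] at hp
    rw [Finset.mem_filter, Finset.mem_Ioc, Nat.floor_lt (Real.exp_pos _).le]
    exact ⟨⟨hp.2.2, by omega⟩, hP p hp.2.1⟩
  · intro p _ _
    positivity

theorem DD_bdd {S : Set ℕ} {m : ℕ → ℝ} (hP : ∀ p ∈ S, p.Prime) (hm : ∀ p ∈ S, |m p| ≤ 1 / p) :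
    ∃ B, ∀ v, |DD S m v| ≤ B := by
  have h := prime_half.eventually_le_const (lt_add_one (Real.log 2))
  obtain ⟨v₀, hv₀⟩ := eventually_atTop.1 h
  refine ⟨max (Real.log 2 + 1) (∑ p ∈ Finset.range (⌊Real.exp v₀⌋₊ + 1), (1 : ℝ) / p), fun v => ?_⟩
  refine (DD_le hP hm v).trans ?_
  rcases le_total v₀ v with h1 | h1
  · exact (hv₀ v h1).trans (le_max_left _ _)
  · refine le_trans ?_ (le_max_right _ _)
    apply Finset.sum_le_sum_of_subset_of_nonneg
    · intro p hp
      rw [Finset.mem_filter, Finset.mem_Ioc] at hp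
      rw [Finset.mem_range]
      have h2 : ⌊Real.exp v⌋₊ ≤ ⌊Real.exp v₀⌋₊ := Nat.floor_le_floor (Real.exp_le_exp.2 h1)
      omega
    · intro p _ _
      positivity

theorem rs : S_RS := by
  intro a b hΔ hrs ζ hζ
  have E := eData a b
  have hP : ∀ p ∈ SS a b, p.Prime := E.prime
  have hm : ∀ p ∈ SS a b, |mm (Ap a b) p| ≤ 1 / p := fun p hp => E.mm_le hp
  have h2 : ∀ p ∈ SS a b, 2 ≤ p := fun p hp => by
    have := E.big p hp
    omega
  obtain ⟨B, hB⟩ := DD_bdd hP hm
  have hL : Tendsto (DD (SS a b) (mm (Ap a b))) atTop (𝓝 (Real.log 2 / 2)) := by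
    have h1 := ((corr_tendsto hΔ hrs).comp Real.tendsto_exp_atTop).neg
    rw [neg_neg] at h1
    refine h1.congr' ?_
    filter_upwards [eventually_ge_atTop (2 * Real.log 25)] with v hv
    have h25 : 25 ≤ Real.exp (v / 2) := by
      have h3 : Real.exp (Real.log 25) = 25 := Real.exp_log (by norm_num)
      rw [← h3]
      exact Real.exp_le_exp.2 (by linarith)
    simp only [Function.comp_apply]
    rw [← Finset.sum_neg_distrib, ← Real.exp_half]
    unfold DD
    apply Finset.sum_congr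
    · apply Finset.filter_congr
      intro p _
      constructor
      · rintro ⟨h3, h4⟩
        refine ⟨⟨h3, ?_⟩, h4⟩
        have h5 : (25 : ℝ) ≤ p := by linarith
        exact_mod_cast h5
      · rintro ⟨h3, h4⟩
        exact ⟨h3.1, h4⟩
    · intro p hp
      have hp1 : p.Prime := hP p (Finset.mem_filter.1 hp).2.1
      have hp0 : (p : ℝ) ≠ 0 := by exact_mod_cast hp1.ne_zero
      unfold mm tt Ap
      rw [dl_sq hp1.one_le]
      field_simp
      ring
  have h := core h2 hm hB hL hζ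
  refine h.congr fun T => ?_
  rfl

end Pool.Agent.W975.S2
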